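import Mathlib

set_option autoImplicit false

open scoped commutatorElement

namespace Pool.Agent.H340R3.Loop

/-- A descending filtration of a group indexed by the natural numbers, with
the commutator of level `a` and level `b` in level `a + b`. -/
structure Filt (G : Type*) [Group G] where
  S : ℕ → Subgroup G
  anti : ∀ n, S (n + 1) ≤ S n
  comm : ∀ a b, ∀ g ∈ S a, ∀ h ∈ S b, ⁅g, h⁆ ∈ S (a + b)

namespace Filt

variable {G : Type*} [Group G] (F : Filt G)

theorem mono {a b : ℕ} (h : a ≤ b) : F.S b ≤ F.S a := by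
  induction h with
  | refl => exact le_rfl
  | step _ ih => exact (F.anti _).trans ih

theorem conj_mem {n : ℕ} {g h : G} (hg : g ∈ F.S 0) (hh : h ∈ F.S n) :
    g * h * g⁻¹ ∈ F.S n := by
  have h1 := F.comm 0 n g hg h hh
  rw [zero_add] at h1
  have h2 := (F.S n).mul_mem h1 hh
  have e : ⁅g, h⁆ * h = g * h * g⁻¹ := by rw [commutatorElement_def]; group
  rwa [e] at h2

theorem conj_mem' {n : ℕ} {g h : G} (hg : g ∈ F.S 0) (hh : h ∈ F.S n) :
    g⁻¹ * h * g ∈ F.S n := by
  have := F.conj_mem ((F.S 0).inv_mem hg) hh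
  rwa [inv_inv] at this

theorem mem0 {n : ℕ} {g : G} (hg : g ∈ F.S n) : g ∈ F.S 0 := F.mono (Nat.zero_le n) hg

/-- The filtration on `G × G` of pairs `(g, h)` with `g` in level `n` and
`g⁻¹ h` in level `n + 1`. -/
def dbl : Filt (G × G) where
  S n :=
    { carrier := {p | p.1 ∈ F.S n ∧ p.1⁻¹ * p.2 ∈ F.S (n + 1)}
      mul_mem' := by
        rintro ⟨g, h⟩ ⟨g', h'⟩ ⟨h1, h2⟩ ⟨h3, h4⟩
        refine ⟨(F.S n).mul_mem h1 h3, ?_⟩
        have e : (g * g')⁻¹ * (h * h') = (g'⁻¹ * (g⁻¹ * h) * g') * (g'⁻¹ * h') := by group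
        change (g * g')⁻¹ * (h * h') ∈ F.S (n + 1)
        rw [e]
        exact (F.S _).mul_mem (F.conj_mem' (F.mem0 h3) h2) h4
      one_mem' := by
        refine ⟨(F.S n).one_mem, ?_⟩
        change (1 : G)⁻¹ * 1 ∈ F.S (n + 1)
        simp [(F.S (n + 1)).one_mem]
      inv_mem' := by
        rintro ⟨g, h⟩ ⟨h1, h2⟩
        refine ⟨(F.S n).inv_mem h1, ?_⟩
        change (g⁻¹)⁻¹ * h⁻¹ ∈ F.S (n + 1)
        have e : (g⁻¹)⁻¹ * h⁻¹ = g * (g⁻¹ * h)⁻¹ * g⁻¹ := by group
        rw [e]
        exact F.conj_mem (F.mem0 h1) ((F.S _).inv_mem h2) }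
  anti n := by
    rintro ⟨g, h⟩ ⟨h1, h2⟩
    exact ⟨F.anti _ h1, F.anti _ h2⟩
  comm a b := by
    rintro ⟨g, h⟩ ⟨h1, h2⟩ ⟨g', h'⟩ ⟨h3, h4⟩
    refine ⟨F.comm a b g h1 g' h3, ?_⟩
    change (⁅g, g'⁆)⁻¹ * ⁅h, h'⁆ ∈ F.S (a + b + 1)
    dsimp only at h1 h2 h3 h4
    set x := g⁻¹ * h with hx
    set x' := g'⁻¹ * h' with hx'
    have eh : h = g * x := by rw [hx]; group
    have eh' : h' = g' * x' := by rw [hx']; group
    have hh' : h' ∈ F.S b := by
      rw [eh']; exact (F.S b).mul_mem h3 (F.anti _ h4)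
    have c1 : ⁅x, h'⁆ ∈ F.S (a + b + 1) := by
      have := F.comm (a + 1) b x h2 h' hh'
      rwa [show a + 1 + b = a + b + 1 by ring] at this
    have c2 : ⁅g, x'⁆ ∈ F.S (a + b + 1) := by
      have := F.comm a (b + 1) g h1 x' h4
      rwa [show a + (b + 1) = a + b + 1 by ring] at this
    have c3 : ⁅g, g'⁆ ∈ F.S 0 := F.mem0 (F.comm a b g h1 g' h3)
    have e : (⁅g, g'⁆)⁻¹ * ⁅h, h'⁆ =
        ((⁅g, g'⁆)⁻¹ * (g * ⁅x, h'⁆ * g⁻¹) * ⁅g, g'⁆) * (g' * ⁅g, x'⁆ * g'⁻¹) := by
      rw [eh, eh']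
      simp only [commutatorElement_def]
      group
    rw [e]
    exact (F.S _).mul_mem (F.conj_mem' c3 (F.conj_mem (F.mem0 h1) c1))
      (F.conj_mem (F.mem0 h3) c2)

theorem mem_dbl {n : ℕ} {p : G × G} :
    p ∈ F.dbl.S n ↔ p.1 ∈ F.S n ∧ p.1⁻¹ * p.2 ∈ F.S (n + 1) := Iff.rfl

/-- Pull back of a filtration. -/
def comap {H : Type*} [Group H] (f : H →* G) : Filt H where
  S n := (F.S n).comap f
  anti n := Subgroup.comap_mono (F.anti n)
  comm a b g hg h hh := by
    rw [Subgroup.mem_comap] at hg hh ⊢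
    rw [map_commutatorElement]
    exact F.comm a b _ hg _ hh

theorem mem_comap {H : Type*} [Group H] (f : H →* G) {n : ℕ} {h : H} :
    h ∈ (F.comap f).S n ↔ f h ∈ F.S n := Iff.rfl

end Filt

/-- The two faces of a cube in the first direction. -/
def faceHom (G : Type*) [Group G] (k : ℕ) :
    ((Fin (k + 1) → Bool) → G) →* ((Fin k → Bool) → G) × ((Fin k → Bool) → G) where
  toFun W := (fun v => W (Fin.cons false v), fun v => W (Fin.cons true v))
  map_one' := rfl
  map_mul' _ _ := rfl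

/-- The filtration of the group of all `k`-cubes in a filtered group. -/
def cubeFilt {G : Type*} [Group G] (F : Filt G) : (k : ℕ) → Filt ((Fin k → Bool) → G)
  | 0 => F.comap (Pi.evalMonoidHom (fun _ : Fin 0 → Bool => G) default)
  | k + 1 => ((cubeFilt F k).dbl).comap (faceHom G k)

section

variable {G : Type*} [Group G] {F : Filt G}

theorem mem_cube_zero {n : ℕ} {W : (Fin 0 → Bool) → G} :
    W ∈ (cubeFilt F 0).S n ↔ W default ∈ F.S n := Iff.rfl

theorem mem_cube_succ {k n : ℕ} {W : (Fin (k + 1) → Bool) → G} :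
    W ∈ (cubeFilt F (k + 1)).S n ↔
      (fun v => W (Fin.cons false v)) ∈ (cubeFilt F k).S n ∧
      (fun v => (W (Fin.cons false v))⁻¹ * W (Fin.cons true v)) ∈ (cubeFilt F k).S (n + 1) :=
  Iff.rfl

/-- Pull back criterion. -/
theorem cube_comap_iff {H : Type*} [Group H] (f : H →* G) (k : ℕ) :
    ∀ (n : ℕ) (W : (Fin k → Bool) → H),
      W ∈ (cubeFilt (F.comap f) k).S n ↔ (fun v => f (W v)) ∈ (cubeFilt F k).S n := by
  induction k with
  | zero => intro n W; rfl
  | succ k ih =>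
    intro n W
    rw [mem_cube_succ, mem_cube_succ, ih, ih]
    simp only [map_mul, map_inv]

/-- Pointwise criterion for a family of filtrations. -/
theorem cube_iInf {ι : Type*} {F' : ι → Filt G} 
    (h : ∀ n g, g ∈ F.S n ↔ ∀ i, g ∈ (F' i).S n) (k : ℕ) :
    ∀ (n : ℕ) (W : (Fin k → Bool) → G),
      W ∈ (cubeFilt F k).S n ↔ ∀ i, W ∈ (cubeFilt (F' i) k).S n := by
  induction k with
  | zero => intro n W; simp only [mem_cube_zero]; exact h _ _
  | succ k ih =>
    intro n W
    simp only [mem_cube_succ]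
    rw [ih, ih]
    exact forall_and.symm

/-- Monotonicity. -/
theorem cube_mono {F' : Filt G} (h : ∀ n, F.S n ≤ F'.S n) (k : ℕ) :
    ∀ (n : ℕ) (W : (Fin k → Bool) → G),
      W ∈ (cubeFilt F k).S n → W ∈ (cubeFilt F' k).S n := by
  induction k with
  | zero => intro n W hW; exact h _ hW
  | succ k ih =>
    intro n W hW
    rw [mem_cube_succ] at hW ⊢
    exact ⟨ih _ _ hW.1, ih _ _ hW.2⟩

/-- Images of cubes. -/
theorem cube_map {H : Type*} [Group H] {F' : Filt H} (f : G →* H)
    (h : ∀ n g, g ∈ F.S n → f g ∈ F'.S n) (k n : ℕ) (W : (Fin k → Bool) → G)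
    (hW : W ∈ (cubeFilt F k).S n) : (fun v => f (W v)) ∈ (cubeFilt F' k).S n := by
  rw [← cube_comap_iff]
  exact cube_mono (F' := F'.comap f) (fun n g hg => h n g hg) k n W hW

/-- Lifting of cubes. -/
theorem cube_lift {H : Type*} [Group H] {F' : Filt H} (f : G →* H)
    (h : ∀ n, ∀ g ∈ F'.S n, ∃ g' ∈ F.S n, f g' = g) (k : ℕ) :
    ∀ (n : ℕ) (W : (Fin k → Bool) → H), W ∈ (cubeFilt F' k).S n →
      ∃ W' ∈ (cubeFilt F k).S n, ∀ v, f (W' v) = W v := by
  induction k with
  | zero =>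
    intro n W hW
    obtain ⟨g', hg', e⟩ := h n _ (mem_cube_zero.1 hW)
    refine ⟨fun _ => g', hg', fun v => ?_⟩
    rw [e]
    exact congrArg W (Subsingleton.elim _ _)
  | succ k ih =>
    intro n W hW
    rw [mem_cube_succ] at hW
    obtain ⟨A, hA, eA⟩ := ih _ _ hW.1
    obtain ⟨D, hD, eD⟩ := ih _ _ hW.2
    refine ⟨fun v => if v 0 then A (Fin.tail v) * D (Fin.tail v) else A (Fin.tail v), ?_, ?_⟩
    · rw [mem_cube_succ]
      constructor
      · simpa using hA
      · simpa using hD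
    · intro v
      refine Fin.consCases (fun b s => ?_) v
      cases b
      · simp only [Fin.cons_zero, Fin.tail_cons, Bool.false_eq_true, if_false]
        exact eA s
      · simp only [Fin.cons_zero, Fin.tail_cons, if_true, map_mul, eA, eD]
        group

/-- The corner lemma: if all vertices but the top one lie in a subgroup `H`, then the top
one lies in `H` modulo level `n + k`. -/
theorem cube_corner (H : Subgroup G) (k : ℕ) :
    ∀ (n : ℕ) (W : (Fin k → Bool) → G), W ∈ (cubeFilt F k).S n →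
      (∀ v, v ≠ (fun _ => true) → W v ∈ H) →
      ∃ h ∈ H, h⁻¹ * W (fun _ => true) ∈ F.S (n + k) := by
  induction k with
  | zero =>
    intro n W hW _
    refine ⟨1, H.one_mem, ?_⟩
    rw [inv_one, one_mul]
    have : (fun _ : Fin 0 => true) = default := Subsingleton.elim _ _
    rw [this]
    exact hW
  | succ k ih =>
    intro n W hW hH
    rw [mem_cube_succ] at hW
    have top : (fun _ : Fin (k + 1) => true) = Fin.cons true (fun _ : Fin k => true) := by
      funext i
      refine Fin.cases ?_ (fun j => ?_) i <;> simp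
    have h0 : ∀ v : Fin k → Bool, W (Fin.cons false v) ∈ H := by
      intro v
      apply hH
      intro e
      have := congrFun e 0
      simp at this
    obtain ⟨h, hh, hm⟩ := ih (n + 1) _ hW.2 (by
      intro v hv
      refine H.mul_mem (H.inv_mem (h0 v)) (hH _ ?_)
      intro e
      apply hv
      funext i
      have := congrFun e i.succ
      simpa using this)
    refine ⟨W (Fin.cons false (fun _ => true)) * h, H.mul_mem (h0 _) hh, ?_⟩
    rw [top, mul_inv_rev, mul_assoc]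
    rw [show n + (k + 1) = n + 1 + k by ring]
    exact hm

theorem cube_const (k : ℕ) : ∀ (n : ℕ) (g : G), g ∈ F.S n →
    (fun _ : Fin k → Bool => g) ∈ (cubeFilt F k).S n := by
  induction k with
  | zero => intro n g hg; exact hg
  | succ k ih =>
    intro n g hg
    rw [mem_cube_succ]
    refine ⟨ih _ _ hg, ?_⟩
    simp only [inv_mul_cancel]
    exact ((cubeFilt F k).S (n + 1)).one_mem

theorem cube_face (k : ℕ) : ∀ (n : ℕ) (i : Fin k) (u : G), u ∈ F.S (n + 1) →
    (fun v : Fin k → Bool => if v i then u else 1) ∈ (cubeFilt F k).S n := by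
  induction k with
  | zero => intro n i; exact i.elim0
  | succ k ih =>
    intro n i u hu
    rw [mem_cube_succ]
    refine Fin.cases ?_ (fun j => ?_) i
    · simp only [Fin.cons_zero, Bool.false_eq_true, if_false, if_true, inv_one, one_mul]
      exact ⟨((cubeFilt F k).S n).one_mem, cube_const k _ _ hu⟩
    · simp only [Fin.cons_succ, inv_mul_cancel]
      exact ⟨ih n j u hu, ((cubeFilt F k).S (n + 1)).one_mem⟩

end

end Pool.Agent.H340R3.Loop
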