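import Pool.Agent.H340R3.Loop.Main

set_option autoImplicit false

namespace Pool.Agent.H340R3.Loop

section

variable {Q M : Type*} [Group M] [MulAction M Q] (D : LoopData Q M) (F : Filt M)

/-- The cubes in the loop coming from a filtration. -/
def QC (k : ℕ) : Set ((Fin k → Bool) → Q) :=
  {q | ∃ V ∈ (cubeFilt F k).S 0, ∀ v, q v = V v • D.o}

variable {D F}

theorem qc_const (h0 : F.S 0 = ⊤) (k : ℕ) (a : Q) : (fun _ => a) ∈ QC D F k :=
  ⟨fun _ => D.r a, cube_const k 0 _ (by rw [h0]; exact Subgroup.mem_top _),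
    fun _ => (D.ro a).symm⟩

theorem qc_face (h0 : F.S 0 = ⊤) (h1 : F.S 1 = ⊤) (k : ℕ) (i : Fin k) (a b : Q) :
    (fun v => if v i then b else a) ∈ QC D F k := by
  refine ⟨fun v => (if v i then D.r b * (D.r a)⁻¹ else 1) * D.r a,
    mul_mem (cube_face k 0 i _ (by rw [h1]; exact Subgroup.mem_top _))
      (cube_const k 0 _ (by rw [h0]; exact Subgroup.mem_top _)), fun v => ?_⟩
  dsimp only
  split_ifs
  · rw [inv_mul_cancel_right, D.ro]
  · rw [one_mul, D.ro]

theorem qc_mul {k : ℕ} (hcl : ∀ V ∈ (cubeFilt F k).S 0,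
        (fun v => D.r (V v • D.o)) ∈ (cubeFilt F k).S 0 ∧
        (fun v => D.l (V v • D.o)) ∈ (cubeFilt F k).S 0)
    {q t w : (Fin k → Bool) → Q} (hq : q ∈ QC D F k) (ht : t ∈ QC D F k)
    (h : ∀ v, D.l (q v) • t v = w v) : w ∈ QC D F k := by
  obtain ⟨V, hV, eV⟩ := hq
  obtain ⟨W, hW, eW⟩ := ht
  refine ⟨_, mul_mem (hcl V hV).2 hW, fun v => ?_⟩
  rw [← h, eV, eW]
  exact (mul_smul _ _ _).symm

theorem qc_div1 {k : ℕ} (hcl : ∀ V ∈ (cubeFilt F k).S 0,
        (fun v => D.r (V v • D.o)) ∈ (cubeFilt F k).S 0 ∧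
        (fun v => D.l (V v • D.o)) ∈ (cubeFilt F k).S 0)
    {q t w : (Fin k → Bool) → Q} (hq : q ∈ QC D F k) (hw : w ∈ QC D F k)
    (h : ∀ v, D.l (q v) • t v = w v) : t ∈ QC D F k := by
  obtain ⟨V, hV, eV⟩ := hq
  obtain ⟨W, hW, eW⟩ := hw
  refine ⟨_, mul_mem (inv_mem (hcl V hV).2) hW, fun v => ?_⟩
  have := h v
  rw [eV, eW] at this
  rw [← inv_smul_smul (D.l (V v • D.o)) (t v), this]
  exact (mul_smul _ _ _).symm

theorem qc_div2 {k : ℕ} (hcl : ∀ V ∈ (cubeFilt F k).S 0,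
        (fun v => D.r (V v • D.o)) ∈ (cubeFilt F k).S 0 ∧
        (fun v => D.l (V v • D.o)) ∈ (cubeFilt F k).S 0)
    {q t w : (Fin k → Bool) → Q} (hq : q ∈ QC D F k) (hw : w ∈ QC D F k)
    (h : ∀ v, D.l (t v) • q v = w v) : t ∈ QC D F k := by
  obtain ⟨V, hV, eV⟩ := hq
  obtain ⟨W, hW, eW⟩ := hw
  refine ⟨_, mul_mem (inv_mem (hcl V hV).1) hW, fun v => ?_⟩
  have := h v
  rw [D.lr, eV, eW] at this
  rw [← inv_smul_smul (D.r (V v • D.o)) (t v), this]
  exact (mul_smul _ _ _).symm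

/-- Uniqueness of the last vertex. -/
theorem qc_unique {k : ℕ} (hbot : F.S (k + 1) = ⊥) {q : (Fin (k + 1) → Bool) → Q}
    (hq : q ∈ QC D F (k + 1))
    (h : ∀ s : Fin k → Bool, s ≠ (fun _ => true) →
      q (Fin.cons false s) = q (Fin.cons true s)) :
    q (Fin.cons false (fun _ => true)) = q (Fin.cons true (fun _ => true)) := by
  obtain ⟨V, hV, eV⟩ := hq
  rw [mem_cube_succ] at hV
  obtain ⟨g, hg, hm⟩ := cube_corner (MulAction.stabilizer M D.o) k _ _ hV.2 (by
    intro s hs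
    have := h s hs
    rw [eV, eV] at this
    rw [MulAction.mem_stabilizer_iff, mul_smul, ← this, inv_smul_smul])
  rw [zero_add, add_comm 1 k, hbot, Subgroup.mem_bot, inv_mul_eq_one] at hm
  rw [hm, MulAction.mem_stabilizer_iff, mul_smul, inv_smul_eq_iff] at hg
  rw [eV, eV, hg]

/-- Absorbing cubes have trivial last vertex. -/
theorem qc_absorb {k : ℕ} (hbot : F.S k = ⊥) {q : (Fin k → Bool) → Q}
    (hq : q ∈ QC D F k)
    (h : ∀ s : Fin k → Bool, s ≠ (fun _ => true) → q s = D.o) :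
    q (fun _ => true) = D.o := by
  obtain ⟨V, hV, eV⟩ := hq
  obtain ⟨g, hg, hm⟩ := cube_corner (MulAction.stabilizer M D.o) k _ _ hV (by
    intro s hs
    have := h s hs
    rw [eV] at this
    rw [MulAction.mem_stabilizer_iff, this])
  rw [zero_add, hbot, Subgroup.mem_bot, inv_mul_eq_one] at hm
  rw [hm, MulAction.mem_stabilizer_iff] at hg
  rw [eV, hg]

end

theorem final (Q : Type) [MulOneClass Q]
    (hl : ∀ a : Q, Function.Bijective (fun x : Q => a * x))
    (hr : ∀ a : Q, Function.Bijective (fun x : Q => x * a)) (c : ℕ)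
    (hc : Subgroup.upperCentralSeries (↥(Subgroup.closure
          {σ : Equiv.Perm Q | ∃ a : Q, ((⇑σ) = fun x : Q => a * x) ∨
            ((⇑σ) = fun x : Q => x * a)})) c = ⊤)
    (m : ℕ) (p : (Fin (ee c) → Fin m → Q) → (Fin m → Q) → Q)
    (hp : ∀ S : Set ((Fin (ee c) → Fin m → Q) → (Fin m → Q) → Q),
          (∀ (i : Fin (ee c)) (j : Fin m),
            (fun (x : Fin (ee c) → Fin m → Q) (_ : Fin m → Q) => x i j) ∈ S) →
          (∀ j : Fin m, (fun (_ : Fin (ee c) → Fin m → Q) (y : Fin m → Q) => y j) ∈ S) →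
          (∀ q : Q, (fun (_ : Fin (ee c) → Fin m → Q) (_ : Fin m → Q) => q) ∈ S) →
          (∀ f ∈ S, ∀ h ∈ S,
            (fun (x : Fin (ee c) → Fin m → Q) (y : Fin m → Q) => f x y * h x y) ∈ S) →
          (∀ f ∈ S, ∀ h ∈ S, ∀ r : (Fin (ee c) → Fin m → Q) → (Fin m → Q) → Q,
            (∀ x y, f x y * r x y = h x y) → r ∈ S) →
          (∀ f ∈ S, ∀ h ∈ S, ∀ r : (Fin (ee c) → Fin m → Q) → (Fin m → Q) → Q,
            (∀ x y, r x y * f x y = h x y) → r ∈ S) →
          p ∈ S)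
    (a b : Fin (ee c) → Fin m → Q) (u v : Fin m → Q)
    (h : ∀ s : Fin (ee c) → Bool, s ≠ (fun _ => true) →
            p (fun i => if s i then b i else a i) u = p (fun i => if s i then b i else a i) v) :
    p b u = p b v := by
  set T : Set (Equiv.Perm Q) := {σ : Equiv.Perm Q | ∃ a : Q, ((⇑σ) = fun x : Q => a * x) ∨
            ((⇑σ) = fun x : Q => x * a)} with hT
  let D : LoopData Q (Subgroup.closure T) :=
    { o := 1
      l := fun a => ⟨Equiv.ofBijective _ (hl a), Subgroup.subset_closure ⟨a, Or.inl rfl⟩⟩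
      r := fun a => ⟨Equiv.ofBijective _ (hr a), Subgroup.subset_closure ⟨a, Or.inr rfl⟩⟩
      lr := fun x y => rfl
      lo := fun x => mul_one x
      ro := fun x => one_mul x }
  have hDl : ∀ x y : Q, D.l x • y = x * y := fun x y => rfl
  obtain ⟨F, h0, h1, hbot, hcl⟩ := key c Q (Subgroup.closure T) D hc
  let K := ee c + 1
  let S : Set ((Fin (ee c) → Fin m → Q) → (Fin m → Q) → Q) :=
    {p | (fun w : Fin K → Bool => p (fun i => if w i.succ then b i else a i)
      (if w 0 then v else u)) ∈ QC D F K}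
  have hpS : p ∈ S := by
    apply hp S
    · intro i j
      have := qc_face (D := D) h0 h1 K i.succ (a i j) (b i j)
      change (fun w : Fin K → Bool => (if w i.succ then b i else a i) j) ∈ QC D F K
      convert this using 2 with w
      split_ifs <;> rfl
    · intro j
      have := qc_face (D := D) h0 h1 K 0 (u j) (v j)
      change (fun w : Fin K → Bool => (if w 0 then v else u) j) ∈ QC D F K
      convert this using 2 with w
      split_ifs <;> rfl
    · intro q
      exact qc_const h0 K q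
    · intro f hf g hg
      exact qc_mul (hcl K) hf hg (fun w => rfl)
    · intro f hf g hg r hfr
      exact qc_div1 (hcl K) hf hg (fun w => hfr _ _)
    · intro f hf g hg r hfr
      exact qc_div2 (hcl K) hf hg (fun w => hfr _ _)
  have hfin := qc_unique (hbot (ee c + 1) (Nat.lt_succ_self _)) hpS (by
    intro s hs
    simpa using h s hs)
  simpa using hfin

end Pool.Agent.H340R3.Loop
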