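import Pool.Agent.H340R3.Loop.Step

set_option autoImplicit false

open scoped commutatorElement

namespace Pool.Agent.H340R3.Loop

open Subgroup (upperCentralSeries)

/-- The filtration used in the induction step. -/
def mkFilt {M M' : Type*} [Group M] [Group M'] (p : M →* M') (F' : Filt M') (e c : ℕ)
    (he : ∀ n, e < n → F'.S n = ⊥)
    (hc : Subgroup.upperCentralSeries M c = ⊤)
    (hK : ∀ a ∈ p.ker, ∀ b ∈ p.ker, a * b = b * a)
    (j : ℕ → ℕ) (j1 : ∀ n, e < n → j (n + 1) ≤ j n)
    (j2 : ∀ a b, e < a → b ≤ e → j a ≤ j (a + b) + 1)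
    (j3 : ∀ n, e < n → n ≤ 2 * e → c ≤ j n + 1) : Filt M where
  S n := if n ≤ e then (F'.S n).comap p else p.ker ⊓ Subgroup.upperCentralSeries M (j n)
  anti n := by
    rcases Nat.lt_trichotomy n e with h | h | h
    · rw [if_pos (by omega), if_pos (by omega)]
      exact Subgroup.comap_mono (F'.anti n)
    · rw [if_neg (by omega), if_pos (by omega)]
      intro g hg
      rw [Subgroup.mem_comap, MonoidHom.mem_ker.1 hg.1]
      exact Subgroup.one_mem _
    · rw [if_neg (by omega), if_neg (by omega)]
      exact inf_le_inf_left _ (Subgroup.upperCentralSeries_mono M (j1 n h))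
  comm := by
    have key : ∀ a b, e < a → b ≤ e → ∀ g ∈ p.ker ⊓ Subgroup.upperCentralSeries M (j a),
        ∀ h : M, ⁅g, h⁆ ∈ p.ker ⊓ Subgroup.upperCentralSeries M (j (a + b)) := by
      intro a b ha hb g hg h
      constructor
      · change ⁅g, h⁆ ∈ p.ker
        rw [MonoidHom.mem_ker, map_commutatorElement, MonoidHom.mem_ker.1 hg.1]
        simp
      · have := Subgroup.upperCentralSeries_mono M (j2 a b ha hb) hg.2
        exact Subgroup.mem_upperCentralSeries_succ_iff.1 this h
    intro a b g hg h hh
    rcases Nat.lt_or_ge e a with ha | ha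
    · rcases Nat.lt_or_ge e b with hb | hb
      · rw [if_neg (by omega)] at hg hh
        have : ⁅g, h⁆ = 1 := by
          rw [commutatorElement_eq_one_iff_mul_comm]
          exact hK g hg.1 h hh.1
        rw [this]
        exact Subgroup.one_mem _
      · rw [if_neg (by omega)] at hg
        rw [if_neg (by omega)]
        exact key a b ha hb g hg h
    · rcases Nat.lt_or_ge e b with hb | hb
      · rw [if_neg (by omega)] at hh
        rw [if_neg (by omega), ← commutatorElement_inv, add_comm a b]
        exact inv_mem (key b a hb ha h hh g)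
      · rw [if_pos ha] at hg
        rw [if_pos hb] at hh
        have h1 : p ⁅g, h⁆ ∈ F'.S (a + b) := by
          rw [map_commutatorElement]
          exact F'.comm a b _ hg _ hh
        rcases Nat.lt_or_ge e (a + b) with hab | hab
        · rw [if_neg (by omega)]
          rw [he _ hab, Subgroup.mem_bot] at h1
          refine ⟨h1, ?_⟩
          have hg' : g ∈ Subgroup.upperCentralSeries M (j (a + b) + 1) := by
            apply Subgroup.upperCentralSeries_mono M (j3 (a + b) hab (by omega))
            rw [hc]
            exact Subgroup.mem_top g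
          exact Subgroup.mem_upperCentralSeries_succ_iff.1 hg' h
        · rw [if_pos hab]
          exact h1

/-- The bound. -/
def ee : ℕ → ℕ
  | 0 => 1
  | m + 1 => (2 * m + 1) * ee m

theorem ee_pos (m : ℕ) : 0 < ee m := by
  induction m with
  | zero => simp [ee]
  | succ m ih => rw [ee]; positivity

/-- Orbits of the centre. -/
def zSetoid (Q M : Type*) [Group M] [MulAction M Q] : Setoid Q where
  r x y := ∃ z ∈ Subgroup.center M, x = z • y
  iseqv :=
    { refl := fun x => ⟨1, Subgroup.one_mem _, (one_smul M x).symm⟩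
      symm := by
        rintro x y ⟨z, hz, e⟩
        exact ⟨z⁻¹, inv_mem hz, by rw [e, inv_smul_smul]⟩
      trans := by
        rintro x y w ⟨z, hz, e⟩ ⟨z', hz', e'⟩
        exact ⟨z * z', mul_mem hz hz', by rw [e, e', mul_smul]⟩ }

/-- The quotient by the orbits of the centre. -/
def QQ (Q M : Type*) [Group M] [MulAction M Q] : Type _ := Quotient (zSetoid Q M)

/-- The class of a point. -/
def qq (Q M : Type*) [Group M] [MulAction M Q] (x : Q) : QQ Q M :=
  Quotient.mk (zSetoid Q M) x

theorem qq_eq {Q M : Type*} [Group M] [MulAction M Q] {x y : Q} :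
    qq Q M x = qq Q M y ↔ ∃ z ∈ Subgroup.center M, x = z • y := by
  constructor
  · intro h
    exact Quotient.exact h
  · intro h
    exact Quotient.sound h

theorem qq_surj {Q M : Type*} [Group M] [MulAction M Q] (w : QQ Q M) : ∃ x, qq Q M x = w :=
  Quotient.exists_rep w

instance {Q M : Type*} [Group M] [MulAction M Q] : MulAction M (QQ Q M) where
  smul g := Quotient.lift (fun x => qq Q M (g • x)) (by
    rintro x y ⟨z, hz, e⟩
    rw [qq_eq]
    exact ⟨z, hz, by rw [e, center_smul hz]⟩)
  one_smul w := by
    obtain ⟨x, rfl⟩ := qq_surj w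
    change qq Q M ((1 : M) • x) = _
    rw [one_smul]
  mul_smul g h w := by
    obtain ⟨x, rfl⟩ := qq_surj w
    change qq Q M ((g * h) • x) = qq Q M (g • h • x)
    rw [mul_smul]

theorem smul_qq {Q M : Type*} [Group M] [MulAction M Q] (g : M) (x : Q) :
    g • qq Q M x = qq Q M (g • x) := rfl

theorem ucs_quot {M M' : Type*} [Group M] [Group M'] (p : M →* M')
    (hp : Function.Surjective p) (hZ : Subgroup.center M ≤ p.ker) (m : ℕ) :
    ∀ g ∈ Subgroup.upperCentralSeries M (m + 1), p g ∈ Subgroup.upperCentralSeries M' m := by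
  induction m with
  | zero =>
    intro g hg
    rw [zero_add, Subgroup.upperCentralSeries_one] at hg
    rw [Subgroup.upperCentralSeries_zero, Subgroup.mem_bot]
    exact MonoidHom.mem_ker.1 (hZ hg)
  | succ m ih =>
    intro g hg
    rw [Subgroup.mem_upperCentralSeries_succ_iff] at hg ⊢
    intro y
    obtain ⟨h, rfl⟩ := hp y
    rw [← map_commutatorElement]
    exact ih _ (hg h)

end Pool.Agent.H340R3.Loop
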