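import Pool.Agent.H340R3.Loop.Ind

set_option autoImplicit false

open scoped commutatorElement

namespace Pool.Agent.H340R3.Loop

section arith

variable (m e : ℕ) (he : 0 < e)

/-- The exponents for the large filtration. -/
def jj (m e n : ℕ) : ℕ := ((2 * m + 1) * e + e - n) / e

/-- The exponents for the small filtration. -/
def js (m e n : ℕ) : ℕ := (m + 2) - (n + e - 1) / e

include he

omit he in
theorem jj1 (n : ℕ) : jj m e (n + 1) ≤ jj m e n :=
  Nat.div_le_div_right (by omega)

theorem jj2 (a b : ℕ) (hb : b ≤ e) : jj m e a ≤ jj m e (a + b) + 1 := by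
  unfold jj
  rw [← Nat.add_div_right _ he]
  exact Nat.div_le_div_right (by omega)

theorem jj3 (n : ℕ) (hn : n ≤ 2 * e) : m + 1 ≤ jj m e n + 1 := by
  unfold jj
  have : m ≤ ((2 * m + 1) * e + e - n) / e := by
    rw [Nat.le_div_iff_mul_le he]
    have : (2 * m + 1) * e = m * e + m * e + e := by ring
    omega
  omega

theorem jj4 (n : ℕ) (hn : n ≤ (m + 1) * e) : m + 1 ≤ jj m e n := by
  unfold jj
  rw [Nat.le_div_iff_mul_le he]
  have h1 : (2 * m + 1) * e = m * e + m * e + e := by ring
  have h2 : (m + 1) * e = m * e + e := by ring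
  omega

theorem jj5 (n : ℕ) (hn : (2 * m + 1) * e < n) : jj m e n = 0 := by
  unfold jj
  apply Nat.div_eq_of_lt
  omega

theorem jj6 (n : ℕ) (hn : n ≤ (2 * m + 1) * e) : 1 ≤ jj m e n := by
  unfold jj
  rw [Nat.le_div_iff_mul_le he]
  omega

theorem js1 (n : ℕ) : js m e (n + 1) ≤ js m e n := by
  unfold js
  have : (n + e - 1) / e ≤ (n + 1 + e - 1) / e := Nat.div_le_div_right (by omega)
  omega

theorem js2 (a b : ℕ) (hb : b ≤ e) : js m e a ≤ js m e (a + b) + 1 := by
  unfold js
  have : (a + b + e - 1) / e ≤ (a + e - 1) / e + 1 := by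
    rw [← Nat.add_div_right _ he]
    exact Nat.div_le_div_right (by omega)
  omega

theorem js3 (n : ℕ) (hn : n ≤ 2 * e) : m + 1 ≤ js m e n + 1 := by
  unfold js
  have : (n + e - 1) / e < 3 := by
    rw [Nat.div_lt_iff_lt_mul he]
    omega
  omega

theorem js5 (n : ℕ) (hn : (m + 1) * e < n) : js m e n = 0 := by
  unfold js
  have : m + 2 ≤ (n + e - 1) / e := by
    rw [Nat.le_div_iff_mul_le he]
    have h2 : (m + 1) * e = m * e + e := by ring
    have h3 : (m + 2) * e = m * e + e + e := by ring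
    omega
  omega

theorem js_le (n : ℕ) : js m e n ≤ jj m e n := by
  unfold js jj
  rw [Nat.le_div_iff_mul_le he]
  set q := (n + e - 1) / e with hq
  have h1 : n + e - 1 < (q + 1) * e := by
    rw [← Nat.div_lt_iff_lt_mul he, ← hq]
    omega
  have h2 : (q + 1) * e = q * e + e := by ring
  have h3 : n ≤ q * e := by omega
  rcases Nat.lt_or_ge (m + 2) q with h | h
  · rw [Nat.sub_eq_zero_of_le h.le]
    omega
  · have h4 : (m + 2 - q) * e + q * e = (m + 2) * e := by
      rw [← Nat.add_mul, Nat.sub_add_cancel h]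
    have h5 : (m + 2) * e = m * e + e + e := by ring
    have h6 : (2 * m + 1) * e = m * e + m * e + e := by ring
    omega

end arith

section

variable {Q M : Type*} [Group M] [MulAction M Q]

theorem LoopData.l_center [FaithfulSMul M Q] (D : LoopData Q M) {z : M}
    (hz : z ∈ Subgroup.center M) (x : Q) : D.l (z • x) = z * D.l x := by
  apply FaithfulSMul.eq_of_smul_eq_smul (α := Q)
  intro y
  rw [D.lr, center_smul hz, ← D.lr, mul_smul]

variable (Q M) in
/-- The acting group on the quotient. -/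
abbrev MM : Subgroup (Equiv.Perm (QQ Q M)) := (MulAction.toPermHom M (QQ Q M)).range

variable (Q M) in
/-- The projection. -/
def pp : M →* MM Q M := (MulAction.toPermHom M (QQ Q M)).rangeRestrict

theorem pp_surj : Function.Surjective (pp Q M) := MonoidHom.rangeRestrict_surjective _

theorem pp_smul (g : M) (x : Q) : pp Q M g • qq Q M x = qq Q M (g • x) := rfl

theorem pp_center : Subgroup.center M ≤ (pp Q M).ker := by
  intro z hz
  rw [MonoidHom.mem_ker]
  apply FaithfulSMul.eq_of_smul_eq_smul (α := QQ Q M)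
  intro w
  obtain ⟨x, rfl⟩ := qq_surj w
  rw [pp_smul, one_smul, qq_eq]
  exact ⟨z, hz, rfl⟩

/-- The quotient loop. -/
def LoopData.quot [FaithfulSMul M Q] (D : LoopData Q M) : LoopData (QQ Q M) (MM Q M) where
  o := qq Q M D.o
  l := Quotient.lift (fun x => pp Q M (D.l x)) (by
    rintro x y ⟨z, hz, e⟩
    rw [e, D.l_center hz, map_mul, MonoidHom.mem_ker.1 (pp_center hz), one_mul])
  r := Quotient.lift (fun x => pp Q M (D.r x)) (by
    rintro x y ⟨z, hz, e⟩
    have := D.swap.l_center hz y
    change D.r (z • y) = z * D.r y at this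
    rw [e, this, map_mul, MonoidHom.mem_ker.1 (pp_center hz), one_mul])
  lr a b := by
    obtain ⟨x, rfl⟩ := qq_surj a
    obtain ⟨y, rfl⟩ := qq_surj b
    change pp Q M (D.l x) • qq Q M y = pp Q M (D.r y) • qq Q M x
    rw [pp_smul, pp_smul, D.lr]
  lo a := by
    obtain ⟨x, rfl⟩ := qq_surj a
    change pp Q M (D.l x) • qq Q M D.o = qq Q M x
    rw [pp_smul, D.lo]
  ro a := by
    obtain ⟨x, rfl⟩ := qq_surj a
    change pp Q M (D.r x) • qq Q M D.o = qq Q M x
    rw [pp_smul, D.ro]

theorem pp_ker_comm [FaithfulSMul M Q] (a : M) (ha : a ∈ (pp Q M).ker) (b : M)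
    (hb : b ∈ (pp Q M).ker) : a * b = b * a := by
  apply FaithfulSMul.eq_of_smul_eq_smul (α := Q)
  intro x
  have h1 : ∃ z ∈ Subgroup.center M, a • x = z • x := by
    rw [← qq_eq, ← pp_smul, MonoidHom.mem_ker.1 ha, one_smul]
  have h2 : ∃ z ∈ Subgroup.center M, b • x = z • x := by
    rw [← qq_eq, ← pp_smul, MonoidHom.mem_ker.1 hb, one_smul]
  obtain ⟨z, hz, e1⟩ := h1
  obtain ⟨z', hz', e2⟩ := h2
  rw [mul_smul, mul_smul, e2, center_smul hz' a x, e1, center_smul hz b x, e2,
    center_smul hz z' x]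

end

universe u

/-- The key induction. -/
theorem key (m : ℕ) : ∀ (Q M : Type u) [Group M] [MulAction M Q] [FaithfulSMul M Q]
    (D : LoopData Q M), Subgroup.upperCentralSeries M m = ⊤ →
    ∃ F : Filt M, F.S 0 = ⊤ ∧ F.S 1 = ⊤ ∧ (∀ n, ee m < n → F.S n = ⊥) ∧
      ∀ k, ∀ V ∈ (cubeFilt F k).S 0,
        (fun v => D.r (V v • D.o)) ∈ (cubeFilt F k).S 0 ∧
        (fun v => D.l (V v • D.o)) ∈ (cubeFilt F k).S 0 := by
  induction m with
  | zero =>
    intro Q M _ _ _ D hM
    rw [Subgroup.upperCentralSeries_zero] at hM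
    have hs : ∀ g : M, g = 1 := by
      intro g
      have : g ∈ (⊥ : Subgroup M) := by rw [hM]; exact Subgroup.mem_top g
      rwa [Subgroup.mem_bot] at this
    refine ⟨⟨fun _ => ⊤, fun _ => le_rfl, fun _ _ _ _ _ _ => Subgroup.mem_top _⟩, rfl, rfl,
      fun _ _ => hM.symm, ?_⟩
    intro k V _
    have h1 : ∀ W : (Fin k → Bool) → M, W = 1 := fun W => funext fun v => hs _
    constructor
    · rw [h1 (fun v => D.r (V v • D.o))]
      exact Subgroup.one_mem _
    · rw [h1 (fun v => D.l (V v • D.o))]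
      exact Subgroup.one_mem _
  | succ m ih =>
    intro Q M _ _ _ D hM
    have hM' : Subgroup.upperCentralSeries (MM Q M) m = ⊤ := by
      rw [eq_top_iff]
      intro y _
      obtain ⟨g, rfl⟩ := pp_surj y
      apply ucs_quot (pp Q M) pp_surj pp_center m
      rw [hM]
      exact Subgroup.mem_top g
    obtain ⟨F', h0, h1, hb, hcl⟩ := ih (QQ Q M) (MM Q M) D.quot hM'
    have he := ee_pos m
    set e := ee m with hee
    let F : Filt M := mkFilt (pp Q M) F' e (m + 1) hb hM pp_ker_comm (jj m e)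
      (fun n _ => jj1 m e n) (fun a b _ hb => jj2 m e he a b hb)
      (fun n _ hn => jj3 m e he n hn)
    let Fs : Filt M := mkFilt (pp Q M) F' e (m + 1) hb hM pp_ker_comm (js m e)
      (fun n _ => js1 m e he n) (fun a b _ hb => js2 m e he a b hb)
      (fun n _ hn => js3 m e he n hn)
    have hF : ∀ n, F.S n = if n ≤ e then (F'.S n).comap (pp Q M) else
      (pp Q M).ker ⊓ Subgroup.upperCentralSeries M (jj m e n) := fun n => rfl
    have hFs : ∀ n, Fs.S n = if n ≤ e then (F'.S n).comap (pp Q M) else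
      (pp Q M).ker ⊓ Subgroup.upperCentralSeries M (js m e n) := fun n => rfl
    have hE : e ≤ (2 * m + 1) * e := by nlinarith
    have hd : e ≤ (m + 1) * e := by nlinarith
    have a1 : ∀ n, (2 * m + 1) * e < n → F.S n = ⊥ := by
      intro n hn
      rw [hF, if_neg (by omega), jj5 m e he n hn, Subgroup.upperCentralSeries_zero, inf_bot_eq]
    have a2 : ∀ n, (m + 1) * e < n → Fs.S n = ⊥ := by
      intro n hn
      rw [hFs, if_neg (by omega), js5 m e he n hn, Subgroup.upperCentralSeries_zero, inf_bot_eq]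
    have a3 : ∀ n, n ≤ (m + 1) * e → (pp Q M).ker ≤ F.S n := by
      intro n hn
      rw [hF]
      split_ifs with h
      · intro g hg
        rw [Subgroup.mem_comap, MonoidHom.mem_ker.1 hg]
        exact Subgroup.one_mem _
      · refine le_inf le_rfl ?_
        have := Subgroup.upperCentralSeries_mono M (jj4 m e he n hn)
        rw [hM] at this
        exact le_trans le_top this
    have a4 : ∀ n, n ≤ (2 * m + 1) * e → Subgroup.center M ≤ F.S n := by
      intro n hn
      rw [hF]
      split_ifs with h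
      · intro g hg
        rw [Subgroup.mem_comap, MonoidHom.mem_ker.1 (pp_center hg)]
        exact Subgroup.one_mem _
      · refine le_inf pp_center ?_
        rw [← Subgroup.upperCentralSeries_one]
        exact Subgroup.upperCentralSeries_mono M (jj6 m e he n hn)
    have a5 : ∀ n, Fs.S n ≤ F.S n := by
      intro n
      rw [hF, hFs]
      split_ifs with h
      · exact le_rfl
      · exact inf_le_inf_left _ (Subgroup.upperCentralSeries_mono M (js_le m e he n))
    have a6 : ∀ n, ∀ g ∈ F.S n, pp Q M g ∈ F'.S n := by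
      intro n g hg
      rw [hF] at hg
      split_ifs at hg with h
      · exact hg
      · rw [MonoidHom.mem_ker.1 hg.1]
        exact Subgroup.one_mem _
    have a7 : ∀ n, ∀ g' ∈ F'.S n, ∃ g ∈ Fs.S n, pp Q M g = g' := by
      intro n g' hg'
      rw [hFs]
      split_ifs with h
      · obtain ⟨g, rfl⟩ := pp_surj g'
        exact ⟨g, hg', rfl⟩
      · rw [hb n (by omega), Subgroup.mem_bot] at hg'
        exact ⟨1, Subgroup.one_mem _, by rw [hg', map_one]⟩
    have top0 : F.S 0 = ⊤ := by
      rw [hF, if_pos (Nat.zero_le _), h0, Subgroup.comap_top]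
    have top1 : F.S 1 = ⊤ := by
      rw [hF, if_pos (show 1 ≤ e from he), h1, Subgroup.comap_top]
    have tops : Fs.S 0 = ⊤ := by
      rw [hFs, if_pos (Nat.zero_le _), h0, Subgroup.comap_top]
    refine ⟨F, top0, top1, a1, ?_⟩
    intro k V hV
    constructor
    · exact step_r D D.quot (pp Q M) (qq Q M) (fun g x => (pp_smul g x).symm)
        (fun x y h => qq_eq.1 h) pp_center rfl (fun x => rfl) F Fs F' a6 a7 a5 _ _ a2 a3 a1 a4
        tops k (fun V hV => (hcl k V hV).1) V hV
    · exact step_r D.swap D.quot.swap (pp Q M) (qq Q M) (fun g x => (pp_smul g x).symm)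
        (fun x y h => qq_eq.1 h) pp_center rfl (fun x => rfl) F Fs F' a6 a7 a5 _ _ a2 a3 a1 a4
        tops k (fun V hV => (hcl k V hV).2) V hV

end Pool.Agent.H340R3.Loop
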