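import Pool.Agent.H340R3.Loop.Filt

set_option autoImplicit false

open scoped commutatorElement

namespace Pool.Agent.H340R3.Loop

/-- A loop structure on `Q` given by its translations in a group `M` acting on `Q`. -/
structure LoopData (Q M : Type*) [Group M] [MulAction M Q] where
  o : Q
  l : Q → M
  r : Q → M
  lr : ∀ x y, l x • y = r y • x
  lo : ∀ x, l x • o = x
  ro : ∀ x, r x • o = x

/-- Interchange of left and right. -/
def LoopData.swap {Q M : Type*} [Group M] [MulAction M Q] (D : LoopData Q M) : LoopData Q M where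
  o := D.o
  l := D.r
  r := D.l
  lr x y := (D.lr y x).symm
  lo := D.ro
  ro := D.lo

section

variable {Q M : Type*} [Group M] [MulAction M Q] [FaithfulSMul M Q] (D : LoopData Q M)

include D in
theorem center_free {z : M} (hz : z ∈ Subgroup.center M) {x : Q} (h : z • x = x) : z = 1 := by
  apply FaithfulSMul.eq_of_smul_eq_smul (α := Q)
  intro y
  rw [one_smul]
  have hc : ∀ g : M, g * z = z * g := fun g => Subgroup.mem_center_iff.1 hz g
  have e : D.l y * (D.l x)⁻¹ * z = z * (D.l y * (D.l x)⁻¹) := hc _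
  have hx : (D.l y * (D.l x)⁻¹) • x = y := by
    rw [mul_smul, inv_smul_eq_iff.2 (D.lo x).symm, D.lo]
  calc z • y = z • ((D.l y * (D.l x)⁻¹) • x) := by rw [hx]
    _ = (z * (D.l y * (D.l x)⁻¹)) • x := by rw [mul_smul z]
    _ = (D.l y * (D.l x)⁻¹ * z) • x := by rw [e]
    _ = (D.l y * (D.l x)⁻¹) • (z • x) := by rw [mul_smul _ z]
    _ = y := by rw [h, hx]

omit [FaithfulSMul M Q] in
theorem center_smul {z : M} (hz : z ∈ Subgroup.center M) (g : M) (x : Q) :
    g • z • x = z • g • x := by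
  rw [← mul_smul, Subgroup.mem_center_iff.1 hz g, mul_smul]

include D in
/-- Cubes of central elements obtained by looking at the action at one point. -/
theorem nu_cube (x : Q) (F1 F2 : Filt M) (d : ℕ) (h1 : ∀ n, d < n → F1.S n = ⊥)
    (h2 : ∀ n, n ≤ d → Subgroup.center M ≤ F2.S n) (k : ℕ) :
    ∀ (n : ℕ) (W z : (Fin k → Bool) → M), W ∈ (cubeFilt F1 k).S n →
      (∀ v, z v ∈ Subgroup.center M) → (∀ v, W v • x = z v • x) → z ∈ (cubeFilt F2 k).S n := by
  induction k with
  | zero =>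
    intro n W z hW hz hWz
    rw [mem_cube_zero] at hW ⊢
    rcases Nat.lt_or_ge d n with h | h
    · rw [h1 n h, Subgroup.mem_bot] at hW
      have := hWz default
      rw [hW, one_smul] at this
      rw [center_free D (hz default) this.symm]
      exact Subgroup.one_mem _
    · exact h2 n h (hz _)
  | succ k ih =>
    intro n W z hW hz hWz
    rw [mem_cube_succ] at hW ⊢
    refine ⟨ih _ _ _ hW.1 (fun v => hz _) (fun v => hWz _), ?_⟩
    refine ih _ _ _ hW.2 (fun v => mul_mem (inv_mem (hz _)) (hz _)) (fun v => ?_)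
    rw [mul_smul, hWz, mul_smul, center_smul (hz _), inv_smul_eq_iff.2,
      center_smul (inv_mem (hz _))]
    rw [center_smul (inv_mem (hz _)), hWz, inv_smul_smul]

/-- Cubes with values in the kernel, looked at pointwise. -/
theorem mu_cube (F1 F2 : Filt M) (d : ℕ) (h1 : ∀ n, d < n → F1.S n = ⊥) (K : Subgroup M)
    (hK : ∀ g ∈ K, ∀ x : Q, ∃ z ∈ Subgroup.center M, g • x = z • x)
    (h2 : ∀ n, n ≤ d → K ≤ F2.S n) (k : ℕ) :
    ∀ (n : ℕ) (m : (Fin k → Bool) → M), (∀ v, m v ∈ K) →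
      (∀ x : Q, ∃ W ∈ (cubeFilt F1 k).S n, ∀ v, m v • x = W v • x) →
      m ∈ (cubeFilt F2 k).S n := by
  induction k with
  | zero =>
    intro n m hm hx
    rw [mem_cube_zero]
    rcases Nat.lt_or_ge d n with h | h
    · have : m default = 1 := by
        apply FaithfulSMul.eq_of_smul_eq_smul (α := Q)
        intro x
        obtain ⟨W, hW, hWm⟩ := hx x
        rw [mem_cube_zero, h1 n h, Subgroup.mem_bot] at hW
        rw [hWm, hW]
      rw [this]
      exact Subgroup.one_mem _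
    · exact h2 n h (hm _)
  | succ k ih =>
    intro n m hm hx
    rw [mem_cube_succ]
    refine ⟨ih _ _ (fun v => hm _) (fun x => ?_), ih _ _
      (fun v => mul_mem (inv_mem (hm _)) (hm _)) (fun x => ?_)⟩
    · obtain ⟨W, hW, hWm⟩ := hx x
      rw [mem_cube_succ] at hW
      exact ⟨_, hW.1, fun v => hWm _⟩
    · obtain ⟨W, hW, hWm⟩ := hx x
      rw [mem_cube_succ] at hW
      refine ⟨_, hW.2, fun v => ?_⟩
      obtain ⟨z, hz, hzx⟩ := hK _ (hm (Fin.cons true v)) x
      rw [mul_smul, mul_smul, ← hWm, hzx, center_smul hz, center_smul hz]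
      congr 1
      obtain ⟨z', hz', hzx'⟩ := hK _ (hm (Fin.cons false v)) x
      have e1 : (m (Fin.cons false v))⁻¹ • x = z'⁻¹ • x := by
        rw [inv_smul_eq_iff, center_smul (inv_mem hz'), hzx', inv_smul_smul]
      have e2 : (W (Fin.cons false v))⁻¹ • x = z'⁻¹ • x := by
        rw [inv_smul_eq_iff, center_smul (inv_mem hz'), ← hWm, hzx', inv_smul_smul]
      rw [e1, e2]

variable {Q' M' : Type*} [Group M'] [MulAction M' Q'] (D' : LoopData Q' M')

/-- The step for the translations `r`. -/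
theorem step_r (p : M →* M') (q : Q → Q') (hpq : ∀ g x, q (g • x) = p g • q x)
    (hfib : ∀ x y, q x = q y → ∃ z ∈ Subgroup.center M, x = z • y)
    (hZ : Subgroup.center M ≤ p.ker)
    (ho : D'.o = q D.o) (hr : ∀ x, D'.r (q x) = p (D.r x))
    (F Fs : Filt M) (F' : Filt M')
    (ha : ∀ n, ∀ g ∈ F.S n, p g ∈ F'.S n)
    (hb : ∀ n, ∀ g' ∈ F'.S n, ∃ g ∈ Fs.S n, p g = g')
    (hc : ∀ n, Fs.S n ≤ F.S n)
    (d E : ℕ) (hd1 : ∀ n, d < n → Fs.S n = ⊥) (hd2 : ∀ n, n ≤ d → p.ker ≤ F.S n)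
    (he1 : ∀ n, E < n → F.S n = ⊥) (he2 : ∀ n, n ≤ E → Subgroup.center M ≤ F.S n)
    (h0 : Fs.S 0 = ⊤) (k : ℕ)
    (hD' : ∀ V ∈ (cubeFilt F' k).S 0, (fun v => D'.r (V v • D'.o)) ∈ (cubeFilt F' k).S 0)
    (V : (Fin k → Bool) → M) (hV : V ∈ (cubeFilt F k).S 0) :
    (fun v => D.r (V v • D.o)) ∈ (cubeFilt F k).S 0 := by
  have hKz : ∀ g ∈ p.ker, ∀ x : Q, ∃ z ∈ Subgroup.center M, g • x = z • x := by
    intro g hg x
    apply hfib
    rw [hpq, MonoidHom.mem_ker.1 hg, one_smul]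
  have hV' : (fun v => p (V v)) ∈ (cubeFilt F' k).S 0 := cube_map p ha k 0 V hV
  have hR' : (fun v => p (D.r (V v • D.o))) ∈ (cubeFilt F' k).S 0 := by
    have := hD' _ hV'
    have e : (fun v => D'.r (p (V v) • D'.o)) = (fun v => p (D.r (V v • D.o))) := by
      funext v
      rw [ho, ← hpq, hr]
    rwa [e] at this
  obtain ⟨V1, hV1, eV1⟩ := cube_lift p hb k 0 _ hV'
  obtain ⟨U1, hU1, eU1⟩ := cube_lift p hb k 0 _ hR'
  have hV1F : V1 ∈ (cubeFilt F k).S 0 := cube_mono hc k 0 _ hV1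
  have hU1F : U1 ∈ (cubeFilt F k).S 0 := cube_mono hc k 0 _ hU1
  -- the first correction
  have hk1 : (fun v => (V1 v)⁻¹ * V v) ∈ (cubeFilt F k).S 0 :=
    mul_mem (inv_mem hV1F) hV
  have hk1K : ∀ v, (V1 v)⁻¹ * V v ∈ p.ker := by
    intro v
    rw [MonoidHom.mem_ker, map_mul, map_inv, eV1, inv_mul_cancel]
  choose z hz hzo using fun v => hKz _ (hk1K v) D.o
  have hzF : z ∈ (cubeFilt F k).S 0 :=
    nu_cube D D.o F F E he1 he2 k 0 _ z hk1 hz hzo
  -- the second correction
  have hkK : ∀ v, (U1 v)⁻¹ * D.r (V v • D.o) ∈ p.ker := by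
    intro v
    rw [MonoidHom.mem_ker, map_mul, map_inv, eU1, inv_mul_cancel]
  have hm : (fun v => (U1 v)⁻¹ * D.r (V v • D.o) * (z v)⁻¹) ∈ (cubeFilt F k).S 0 := by
    apply mu_cube Fs F d hd1 p.ker hKz hd2 k 0
    · intro v
      exact mul_mem (hkK v) (inv_mem (hZ (hz v)))
    · intro x
      refine ⟨fun v => (U1 v)⁻¹ * (D.l x * V1 v * (D.l x)⁻¹), ?_, fun v => ?_⟩
      · refine mul_mem (inv_mem hU1) ?_
        have hl : (fun _ : Fin k → Bool => D.l x) ∈ (cubeFilt Fs k).S 0 :=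
          cube_const k 0 _ (by rw [h0]; exact Subgroup.mem_top _)
        exact mul_mem (mul_mem hl hV1) (inv_mem hl)
      · have e1 : V v • D.o = z v • V1 v • D.o := by
          have := hzo v
          rw [mul_smul, inv_smul_eq_iff, center_smul (hz v)] at this
          exact this
        have e2 : (D.l x)⁻¹ • x = D.o := by
          rw [inv_smul_eq_iff, D.lo]
        simp only [mul_smul]
        rw [e2, center_smul (inv_mem (hz v)), ← D.lr, e1, center_smul (hz v), inv_smul_smul]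
  have e : (fun v => D.r (V v • D.o)) =
      U1 * ((fun v => (U1 v)⁻¹ * D.r (V v • D.o) * (z v)⁻¹) * z) := by
    funext v
    simp only [Pi.mul_apply]
    group
  rw [e]
  exact mul_mem hU1F (mul_mem hm hzF)

end

end Pool.Agent.H340R3.Loop
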